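import Pool.Agent.Helper5.SX.St

/-!
# Project SX (MP_7b75b3_co): module CLA, the vertices of `C B` are dominated
-/

set_option autoImplicit false

namespace Pool.Agent.Helper54.SX

open Finset _root_.SX
open scoped Classical

theorem hCLA (hCYC : StCYC) (hBFA : StBFA) (hCZ : StCZ) (hROT : StROT) (hFCD : StFCD)
    (hRPC : StRPC) : StCLA := by
  intro V _ A c y l t0 t1 C L F B hB v hv
  have hmx := F.st.mx
  have hst := hmx.st
  obtain ⟨hl, hcz⟩ := hCZ V A c y l hmx
  obtain ⟨hm1, -⟩ := hBFA V A c y l hst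
  have hT := F.comp B hB
  have hRp : ∀ w ∈ Rp A c y l t0 B, w ∈ Rb A c y l B ∧ exc A c y l w ≤ t0 := by
    intro w hw
    unfold Rp at hw
    exact mem_filter.1 hw
  have hRb : ∀ w ∈ Rb A c y l B, A.b w = B ∧ w ∉ Mk A c ∧ w ∉ Cen y l := by
    intro w hw
    unfold Rb at hw
    exact (mem_filter.1 hw).2
  have hvR : v ∈ Rp A c y l t0 B := hT.sub hv
  obtain ⟨hvRb, hexc⟩ := hRp v hvR
  obtain ⟨hbv, hvM, hvC⟩ := hRb v hvRb
  have hBG := hB
  unfold Gd at hBG
  rw [mem_filter] at hBG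
  obtain ⟨hBS, hBt⟩ := hBG
  have hMk : ∀ w : V, c w = A.al → w ∈ Mk A c := by
    intro w hw
    unfold Mk
    exact mem_filter.2 ⟨mem_univ _, Or.inr hw⟩
  by_contra hne
  have hnb : ∀ z ∈ A.N v, z ∉ Kset A c y l := by
    intro z hz hzK
    apply hne
    unfold Kn
    exact ⟨z, mem_filter.2 ⟨hz, hzK⟩⟩
  have hnav : ¬ Av A c v := by
    intro h
    obtain ⟨z, hz, hzK⟩ := hcz v (by rw [hbv]; exact hBS) h
    exact hnb z hz hzK
  unfold Av at hnav
  push Not at hnav
  obtain ⟨hvu, h2⟩ := hnav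
  have hcal : c v ≠ A.al := fun h => hvM (hMk v h)
  obtain ⟨m, hmM, hmb, z, hz, hzc, hvk⟩ := h2 hcal
  -- injectivity on the block
  have hinj : ∀ w ∈ Rp A c y l t0 B, ∀ w' ∈ Rp A c y l t0 B, c w = c w' → w = w' := by
    intro w hw w' hw' h
    have e1 := (hRb w (hRp w hw).1).1
    have e2 := (hRb w' (hRp w' hw').1).1
    exact hst.base.lab.inj w w' (by rw [e1, e2]) h
  -- counting
  obtain ⟨x', hx'R, hx'F, hx'N⟩ : ∃ x' ∈ Rp A c y l t0 B, c x' ∉ Fb A c y l v ∧
      ∀ z ∈ A.N m, c z ≠ c x' := by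
    by_contra hcon
    push Not at hcon
    have hsub : (Rp A c y l t0 B).image c ⊆ Fb A c y l v ∪ (A.N m).image c := by
      intro a ha
      rw [mem_image] at ha
      obtain ⟨w, hw, rfl⟩ := ha
      rw [mem_union]
      by_cases hF : c w ∈ Fb A c y l v
      · exact Or.inl hF
      · obtain ⟨z', hz', hz'c⟩ := hcon w hw hF
        exact Or.inr (mem_image.2 ⟨z', hz', hz'c⟩)
    have h3 := card_le_card hsub
    rw [card_image_of_injOn (fun w hw w' hw' h => hinj w (by simpa using hw) w'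
      (by simpa using hw') h)] at h3
    have h4 := card_union_le (Fb A c y l v) ((A.N m).image c)
    have h5 : ((A.N m).image c).card ≤ A.D := le_trans card_image_le (A.deg m)
    have h6 := hFCD V A c y l v hst
    have h7 := hRPC V A c y l t0 hst hl B hBS
    have h8 := F.big
    omega
  have hx'C : x' ∈ C B := hT.closed v hv x' hx'R hx'F
  have hvx' : v ≠ x' := by
    rintro rfl
    exact hx'N z hz hzc
  obtain ⟨π, hπ, hmove⟩ := hCYC V (Arc A c y l) (C B) v x' hv hx'C hvx' hx'F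
    (hT.conn x' hx'C v hv)
  obtain ⟨hmx', hMk', hK', hS'⟩ := hROT V A c y l π B hmx (by
    intro w hw
    obtain ⟨h1, h2, h3⟩ := hmove w hw
    exact ⟨(hRp w (hT.sub h1)).1, (hRp _ (hT.sub h2)).1, h3⟩)
  obtain ⟨-, hcz'⟩ := hCZ V A (fun v => c (π v)) y l hmx'
  obtain ⟨w, hw, hwK⟩ := hcz' v (by rw [hS', hbv]; exact hBS) (by
    right
    have hcx' : c x' ≠ A.al := fun h => (hRb x' (hRp x' hx'R).1).2.1 (hMk x' h)
    refine ⟨by simpa only [hπ] using hcx', ?_⟩
    intro m' hm' hbm' z' hz' hz'c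
    exfalso
    rw [hMk'] at hm'
    have hmm : m' = m := hm1 m' hm' m hmM (by rw [hbm', hmb])
    subst hmm
    have hz'b : A.b z' ≠ B := by
      have := A.out m' z' hz'
      rw [hmb, hbv] at this
      exact this
    have hfix : π z' = z' := by
      by_contra hf
      exact hz'b (hRb z' (hRp z' (hT.sub (hmove z' hf).1)).1).1
    simp only [hπ, hfix] at hz'c
    exact hx'N z' hz' hz'c)
  rw [hK'] at hwK
  exact hnb w hw hwK

end Pool.Agent.Helper54.SX
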