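import Pool.Agent.Helper5.SX.St

/-!
# Project SX (MP_7b75b3_co): module NCT, non-critical tight vertices
-/

set_option autoImplicit false

namespace Pool.Agent.Helper54.SX

open Finset _root_.SX
open scoped Classical

theorem hNCT (hBFB : StBFB) (hCZ : StCZ) (hUNF : StUNF) : StNCT := by
  intro V _ A c y l t0 t1 C L F
  have hmx := F.st.mx
  have hst := hmx.st
  obtain ⟨hl, -⟩ := hCZ V A c y l hmx
  obtain ⟨-, hKS, hSK, hcard, -⟩ := hBFB V A c y l hst hl
  have hU := hUNF V A c y l hmx
  obtain ⟨Z, hZ⟩ : ∃ Z : V → V → Finset V, ∀ m v, Z m v = (A.N m).filter (fun z => c z = c v) :=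
    ⟨_, fun _ _ => rfl⟩
  have hUnd : ∀ B, ∀ v ∈ Und A c y l B, A.b v = B := by
    intro B v hv
    unfold Und at hv
    exact (mem_filter.1 hv).2.1
  -- the used neighbours
  have hUs : ∀ m ∈ KM A c y l, (Us A c y l m).card =
      ∑ v ∈ Und A c y l (A.b m), (Z m v).card := by
    intro m hm
    have h1 : Us A c y l m = (Und A c y l (A.b m)).biUnion (fun v => Z m v) := by
      ext z
      unfold Us
      rw [mem_filter, mem_biUnion]
      constructor
      · rintro ⟨hz, v, hv, hvz⟩
        exact ⟨v, hv, by rw [hZ, mem_filter]; exact ⟨hz, hvz.symm⟩⟩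
      · rintro ⟨v, hv, hz⟩
        rw [hZ, mem_filter] at hz
        exact ⟨hz.1, v, hv, hz.2.symm⟩
    rw [h1]
    refine card_biUnion ?_
    intro v hv v' hv' hne
    refine disjoint_left.2 ?_
    intro z hz hz'
    simp only [hZ, mem_filter] at hz hz'
    exact hne (hst.base.lab.inj v v' (by rw [hUnd _ v hv, hUnd _ v' hv'])
      (by rw [← hz.2, ← hz'.2]))
  have hZ1 : ∀ m ∈ KM A c y l, ∀ v ∈ Und A c y l (A.b m), 1 ≤ (Z m v).card := by
    intro m hm v hv
    obtain ⟨h1, -, -⟩ := hU m hm
    obtain ⟨-, -, -, -, z, hz, hzc⟩ := h1 v hv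
    rw [Nat.one_le_iff_ne_zero, ← Nat.pos_iff_ne_zero, card_pos]
    exact ⟨z, by rw [hZ, mem_filter]; exact ⟨hz, hzc⟩⟩
  -- the blocks of the marks
  have hbij : ∑ B ∈ Sb A c y l, (Und A c y l B).card =
      ∑ m ∈ KM A c y l, (Und A c y l (A.b m)).card := by
    have himg : (KM A c y l).image A.b = Sb A c y l := by
      ext B
      rw [mem_image]
      constructor
      · rintro ⟨m, hm, rfl⟩
        unfold KM at hm
        exact hKS m (mem_filter.1 hm).1
      · intro hB
        obtain ⟨m, hm, hmB⟩ := hSK B hB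
        exact ⟨m, hm, hmB⟩
    have hinj : Set.InjOn A.b (KM A c y l : Set V) := by
      rw [← card_image_iff, himg, hcard]
    rw [← himg, sum_image hinj]
  -- the tight vertices
  have hTv : ∑ B ∈ Gd A c y l t0 t1, (Tv A c y l (C B)).card ≤
      ∑ m ∈ KM A c y l, ∑ v ∈ Und A c y l (A.b m), 2 * ((Z m v).card - 1) := by
    have hdisj : ∑ B ∈ Gd A c y l t0 t1, (Tv A c y l (C B)).card =
        ((Gd A c y l t0 t1).biUnion (fun B => Tv A c y l (C B))).card := by
      refine (card_biUnion ?_).symm
      intro B hB B' hB' hne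
      refine disjoint_left.2 ?_
      intro z hz hz'
      have hb : ∀ B'' ∈ Gd A c y l t0 t1, z ∈ Tv A c y l (C B'') → A.b z = B'' := by
        intro B'' hB'' hz''
        unfold Tv at hz''
        have h1 := (F.comp B'' hB'').sub (mem_filter.1 hz'').1
        unfold Rp at h1
        have h2 := (mem_filter.1 h1).1
        unfold Rb at h2
        exact (mem_filter.1 h2).2.1
      exact hne (by rw [← hb B hB hz, ← hb B' hB' hz'])
    rw [hdisj]
    have hsub : (Gd A c y l t0 t1).biUnion (fun B => Tv A c y l (C B)) ⊆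
        (KM A c y l).biUnion (fun m => (Und A c y l (A.b m)).biUnion
          (fun v => if 2 ≤ (Z m v).card then Z m v else ∅)) := by
      intro z hz
      rw [mem_biUnion] at hz
      obtain ⟨B, hB, hz⟩ := hz
      unfold Tv at hz
      rw [mem_filter] at hz
      obtain ⟨hzC, ⟨hne, hall⟩, hcr⟩ := hz
      obtain ⟨m, hm⟩ := hne
      obtain ⟨hmM, v, hv, hvz⟩ := hall m hm
      have hm' := hm
      unfold Kn at hm'
      rw [mem_filter] at hm'
      have hzm : z ∈ A.N m := A.symm z m hm'.1
      have hmK : m ∈ KM A c y l := by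
        unfold KM
        exact mem_filter.2 ⟨hm'.2, hmM⟩
      unfold Crit at hcr
      push Not at hcr
      obtain ⟨z', hz', hz'c, hz'n⟩ := hcr m hm hmM ⟨v, hv, hvz⟩
      have h2 : 2 ≤ (Z m v).card := by
        rw [← card_pair hz'n]
        refine card_le_card ?_
        intro w hw
        rw [mem_insert, mem_singleton] at hw
        rw [hZ, mem_filter]
        rcases hw with rfl | rfl
        · exact ⟨hz', by rw [hz'c, hvz]⟩
        · exact ⟨hzm, hvz.symm⟩
      rw [mem_biUnion]
      refine ⟨m, hmK, ?_⟩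
      rw [mem_biUnion]
      refine ⟨v, hv, ?_⟩
      rw [if_pos h2, hZ, mem_filter]
      exact ⟨hzm, hvz.symm⟩
    refine le_trans (card_le_card hsub) (le_trans card_biUnion_le ?_)
    refine sum_le_sum fun m hm => le_trans card_biUnion_le ?_
    refine sum_le_sum fun v hv => ?_
    split_ifs with h
    · omega
    · simp
  have hfin : ∑ m ∈ KM A c y l, ∑ v ∈ Und A c y l (A.b m), 2 * ((Z m v).card - 1) +
      2 * ∑ m ∈ KM A c y l, (Und A c y l (A.b m)).card =
      2 * ∑ m ∈ KM A c y l, (Us A c y l m).card := by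
    rw [mul_sum, mul_sum, ← sum_add_distrib]
    refine sum_congr rfl fun m hm => ?_
    rw [hUs m hm, mul_sum, card_eq_sum_ones, mul_sum, ← sum_add_distrib]
    refine sum_congr rfl fun v hv => ?_
    have := hZ1 m hm v hv
    omega
  rw [hbij]
  omega

end Pool.Agent.Helper54.SX
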